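import Pool.Agent.N625.SI.Defs
import Pool.Agent.N625.SI.Main

/-!
# The continuous theory of the hyperfinite II_1 factor is not simple

Let `M` be the tensor product of the copies `(i, n)`, `i ∈ ℝ`, `n ∈ ℕ`, of the `2 × 2` matrices, and
let `z(i, n)` be the Pauli matrix `Z` in the copy `(i, n)`. An approximate back-and-forth system
shows that `M` is elementarily equivalent to the hyperfinite factor and that the tuples of the
`z(i, n)` of the same equality type have the same type. Let `B` be the set of the `z(i, 0)` and
`z(i, 1)`. Limits of products of flips realize (approximately) a complete type `p` over `B` which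
contains the conditions `x x* = 1` and `x z(i, 0) = z(i, 1) x` for all `i`. A separable subset `A` of
`B` is countable, so `z(i, 1) ∉ A` for some `i`, the sequence `z(i, 1), z(i, 2), …` is indiscernible
over the other elements of `B`, and the conditions `x x* = 1`, `x z(i, 0) = z(i, n) x` for `n = 1, 2`
contradict each other. So `p` divides over every separable subset of `B`.
-/

set_option autoImplicit false

namespace Pool.Agent.Results.MP_baa3fb_lc.NotSimple

open Pool.Agent.H504R3.S Pool.Agent.N625.SI

/-- The continuous theory of the hyperfinite II_1 factor is not simple. -/
theorem result (R : Str) (hR : R.IsHyperfinite) : ¬ IsSimple R := not_simple R hR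

end Pool.Agent.Results.MP_baa3fb_lc.NotSimple
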